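import Pool.Agent.H454R3.Att.Main

/-!
# Every attractive c.e. degree is almost everywhere dominating
-/

set_option autoImplicit false

namespace Pool.Agent.H454R3.Att

open Encodable Pool.Agent.Helper578.JD Pool.Agent.Helper578.JD.Oracle MeasureTheory Filter

/-- The function `f` is computable from the set `A`. -/
def FComputableFrom (A : Set ℕ) (f : ℕ → ℕ) : Prop :=
  TuringReducible (fun n => Part.some (f n)) (Defs.chi A)

theorem fComputableFrom_iff {A : Set ℕ} {f : ℕ → ℕ} : FComputableFrom A f ↔ FunIn A f :=
  turingReducible_fun_iff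

/-- `f` is dominated by `g`: `f(n) ≤ g(n)` for all but finitely many `n`. -/
def DominatedBy (f g : ℕ → ℕ) : Prop := ∀ᶠ n in atTop, f n ≤ g n

/-- `A` is almost everywhere dominating: for almost every `B`, every `B`-computable function is
dominated by some `A`-computable function. -/
def AEDominating (A : Set ℕ) : Prop :=
  ∀ᵐ b ∂coins, ∀ g : ℕ → ℕ, FComputableFrom (toSet b) g →
    ∃ f : ℕ → ℕ, FComputableFrom A f ∧ DominatedBy g f

theorem FunIn.mono {A B : Set ℕ} {f : ℕ → ℕ} (h : Red A B) (hf : FunIn A f) : FunIn B f :=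
  reMono hf h

theorem aed_of_attractive {A W : Set ℕ} (hW : REPred fun n => n ∈ W) (hWA : TEqv W A)
    (hatt : Attractive A) : AEDominating A := by
  obtain ⟨a, ha⟩ := RE.wst_univ hW
  unfold AEDominating
  filter_upwards [hatt] with b hb g hg
  by_contra hcon
  push Not at hcon
  have h1 := one_le_H ha hWA (fComputableFrom_iff.1 hg) fun f hf N => by
    have h2 := hcon f (fComputableFrom_iff.2 (hf.mono hWA.1))
    unfold DominatedBy at h2
    rw [Filter.eventually_atTop] at h2
    push Not at h2
    obtain ⟨n, hn, hfn⟩ := h2 N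
    exact ⟨n, hn, hfn⟩
  rw [hb] at h1
  norm_num at h1

end Pool.Agent.H454R3.Att
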