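import Mathlib

/-!
# The coarse metric and the Hausdorff distance
-/

set_option autoImplicit false

namespace Pool.Agent.H454R3.Att

open Filter Topology Set

/-- The upper density `limsup_n |X ∩ [0,n)| / n`. -/
noncomputable def upperDensity (X : Set ℕ) : ℝ :=
  limsup (fun n : ℕ => ((X ∩ Set.Iio n).ncard : ℝ) / n) atTop

theorem fin_inter (X : Set ℕ) (n : ℕ) : (X ∩ Set.Iio n).Finite :=
  (Set.finite_Iio n).subset Set.inter_subset_right

theorem frac_nonneg (X : Set ℕ) (n : ℕ) : 0 ≤ ((X ∩ Set.Iio n).ncard : ℝ) / n := by positivity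

theorem ncard_le (X : Set ℕ) (n : ℕ) : (X ∩ Set.Iio n).ncard ≤ n := by
  have h := Set.ncard_le_ncard (s := X ∩ Set.Iio n) (t := Set.Iio n) Set.inter_subset_right
    (Set.finite_Iio n)
  simpa using h

theorem frac_le_one (X : Set ℕ) (n : ℕ) : ((X ∩ Set.Iio n).ncard : ℝ) / n ≤ 1 := by
  apply div_le_one_of_le₀ _ (by positivity)
  exact_mod_cast ncard_le X n

theorem bddU (X : Set ℕ) : IsBoundedUnder (· ≤ ·) atTop
    fun n : ℕ => ((X ∩ Set.Iio n).ncard : ℝ) / n :=
  isBoundedUnder_of ⟨1, frac_le_one X⟩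

theorem bddL (X : Set ℕ) : IsBoundedUnder (· ≥ ·) atTop
    fun n : ℕ => ((X ∩ Set.Iio n).ncard : ℝ) / n :=
  isBoundedUnder_of ⟨0, frac_nonneg X⟩

theorem upperDensity_le {X : Set ℕ} {c : ℝ}
    (h : ∀ᶠ n : ℕ in atTop, ((X ∩ Set.Iio n).ncard : ℝ) / n ≤ c) : upperDensity X ≤ c :=
  limsup_le_of_le (bddL X).isCoboundedUnder_le h

theorem le_upperDensity {X : Set ℕ} {c : ℝ}
    (h : ∃ᶠ n : ℕ in atTop, c ≤ ((X ∩ Set.Iio n).ncard : ℝ) / n) : c ≤ upperDensity X :=
  le_limsup_of_frequently_le h (bddU X)

theorem upperDensity_nonneg (X : Set ℕ) : 0 ≤ upperDensity X :=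
  le_upperDensity (Frequently.of_forall (frac_nonneg X))

theorem upperDensity_le_one (X : Set ℕ) : upperDensity X ≤ 1 :=
  upperDensity_le (Eventually.of_forall (frac_le_one X))

theorem upperDensity_union_le {X Y Z : Set ℕ} (h : X ⊆ Y ∪ Z) :
    upperDensity X ≤ upperDensity Y + upperDensity Z := by
  have h1 : ∀ n : ℕ, ((X ∩ Set.Iio n).ncard : ℝ) / n ≤
      ((Y ∩ Set.Iio n).ncard : ℝ) / n + ((Z ∩ Set.Iio n).ncard : ℝ) / n := by
    intro n
    rw [← add_div]
    apply div_le_div_of_nonneg_right _ (by positivity)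
    have h2 : X ∩ Set.Iio n ⊆ (Y ∩ Set.Iio n) ∪ (Z ∩ Set.Iio n) := by
      rintro x ⟨hx, hn⟩
      rcases h hx with hx | hx
      · exact Or.inl ⟨hx, hn⟩
      · exact Or.inr ⟨hx, hn⟩
    have h3 := (Set.ncard_le_ncard h2 ((fin_inter Y n).union (fin_inter Z n))).trans
      (Set.ncard_union_le _ _)
    exact_mod_cast h3
  calc upperDensity X ≤ limsup (fun n : ℕ => ((Y ∩ Set.Iio n).ncard : ℝ) / n +
        ((Z ∩ Set.Iio n).ncard : ℝ) / n) atTop := by
        refine limsup_le_limsup (Eventually.of_forall h1) (bddL X).isCoboundedUnder_le ?_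
        exact isBoundedUnder_of ⟨2, fun n => by
          have := frac_le_one Y n; have := frac_le_one Z n; linarith⟩
    _ ≤ upperDensity Y + upperDensity Z :=
        limsup_add_le (bddL Y) (bddU Y) (bddL Z).isCoboundedUnder_le (bddU Z)

theorem upperDensity_empty : upperDensity ∅ = 0 := by
  refine le_antisymm (upperDensity_le (Eventually.of_forall fun n => ?_)) (upperDensity_nonneg _)
  simp

/-- `δ(A, B)`: the upper density of the symmetric difference of `A` and `B`. -/
noncomputable def delta (A B : Set ℕ) : ℝ := upperDensity (symmDiff A B)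

theorem delta_self (A : Set ℕ) : delta A A = 0 := by
  unfold delta
  rw [symmDiff_self]
  exact upperDensity_empty

theorem delta_comm (A B : Set ℕ) : delta A B = delta B A := by
  unfold delta
  rw [symmDiff_comm]

theorem delta_triangle (A B C : Set ℕ) : delta A C ≤ delta A B + delta B C :=
  upperDensity_union_le (symmDiff_triangle A B C)

/-- The subsets of `ℕ`, to be considered with the pseudo-metric `δ`. -/
def CSet : Type := Set ℕ

/-- The subsets of `ℕ` with the pseudo-metric `δ(A, B)`. -/
noncomputable instance : PseudoMetricSpace CSet where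
  dist A B := delta A B
  dist_self A := delta_self A
  dist_comm A B := delta_comm A B
  dist_triangle A B C := delta_triangle A B C

/-- The metric space `𝒮` of the classes of subsets of `ℕ` up to coarse similarity (i.e. up to
`δ(A, B) = 0`), with the metric `δ`. -/
abbrev CoarseSpace : Type := SeparationQuotient CSet

/-- The class `[A]` of `A` in `𝒮`. -/
noncomputable def cls (A : Set ℕ) : CoarseSpace := SeparationQuotient.mk (A : CSet)

theorem dist_cls (A B : Set ℕ) : dist (cls A) (cls B) = delta A B := rfl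

/-- two sets are in the same class exactly if they are coarsely similar: the symmetric difference
has asymptotic density `0` -/
theorem cls_eq_iff (A B : Set ℕ) : cls A = cls B ↔
    Tendsto (fun n : ℕ => ((symmDiff A B ∩ Set.Iio n).ncard : ℝ) / n) atTop (𝓝 0) := by
  rw [← dist_eq_zero, dist_cls, delta]
  constructor
  · intro h
    refine tendsto_of_le_liminf_of_limsup_le ?_ h.le (bddU _) (bddL _)
    exact le_liminf_of_le (bddU _).isCoboundedUnder_ge (Eventually.of_forall (frac_nonneg _))
  · intro h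
    exact h.limsup_eq

theorem one_le_hausdorff {s t : Set CoarseSpace} (ht : t.Nonempty) {x : Set ℕ} (hx : cls x ∈ s)
    (h : ∀ y : Set ℕ, cls y ∈ t → 1 ≤ delta x y) :
    1 ≤ Metric.hausdorffDist s t := by
  have hb : ∀ s : Set CoarseSpace, Bornology.IsBounded s := by
    intro s
    rw [Metric.isBounded_iff]
    refine ⟨1, fun a _ b _ => ?_⟩
    obtain ⟨a, rfl⟩ := SeparationQuotient.surjective_mk a
    obtain ⟨b, rfl⟩ := SeparationQuotient.surjective_mk b
    exact upperDensity_le_one _
  have h1 := Metric.infDist_le_hausdorffDist_of_mem hx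
    (Metric.hausdorffEDist_ne_top_of_nonempty_of_bounded ⟨_, hx⟩ ht (hb s) (hb t))
  refine le_trans ?_ h1
  rw [Metric.le_infDist ht]
  intro y hy
  obtain ⟨y, rfl⟩ := SeparationQuotient.surjective_mk y
  exact h y hy

end Pool.Agent.H454R3.Att
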