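import Pool.Agent.Helper578.JD.Main

/-!
# A set which computes a function dominating all computable functions is high
-/

set_option autoImplicit false

namespace Pool.Agent.H454R3.Att

open Encodable Pool.Agent.Helper578.JD Pool.Agent.Helper578.JD.Oracle

theorem Red.iff_refl (A : Set ℕ) : Red A A := Red.refl A

theorem jump_mono {A B : Set ℕ} (h : Red A B) : Red (jump A) (jump B) := by
  obtain ⟨f, hf, h1⟩ := REIn_iff_jump.1 (reMono (mem_jump_re (A := A)) h)
  rw [Red_iff]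
  exact ⟨(REIn.mem hf).of_eq fun a => (h1 a).symm, (REIn.not_mem hf).of_eq fun a =>
    not_congr (h1 a).symm⟩

theorem jump_empty_re : REPred fun x : ℕ => x ∈ jump ∅ := by
  have h1 : REPred fun x : ℕ => ∃ c : Info, c.1 = [] ∧ W x (encode c) := by
    refine RE.ex (p := fun (x : ℕ) (c : Info) => c.1 = [] ∧ W x (encode c)) (RE.and ?_ ?_)
    · exact RE.eq (f := fun x : ℕ × Info => x.2.1) (g := fun _ => []) (by fun_prop) (by fun_prop)
    · exact RE.comp W_re (f := fun x : ℕ × Info => (x.1, encode x.2)) (by fun_prop)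
  refine h1.of_eq fun x => ?_
  constructor
  · rintro ⟨c, hc, hW⟩
    exact ⟨c, ⟨by simp [hc], by simp⟩, hW⟩
  · rintro ⟨c, hc, hW⟩
    refine ⟨c, ?_, hW⟩
    rw [List.eq_nil_iff_forall_not_mem]
    intro x hx
    exact hc.1 x hx

/-- `F` is computable from `A` -/
def FunIn (A : Set ℕ) (F : ℕ → ℕ) : Prop := REIn A fun p : ℕ × ℕ => F p.1 = p.2

theorem FunIn.re {A : Set ℕ} {F : ℕ → ℕ} (hF : FunIn A F) {α : Type*} [Primcodable α]
    {S : α → ℕ → Prop} (hS : REIn A fun x : α × ℕ => S x.1 x.2) {f : α → ℕ} (hf : Computable f) :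
    REIn A fun a => S a (F (f a)) := by
  have h1 : REIn A fun a => ∃ v, F (f a) = v ∧ S a v := by
    refine REIn.ex (S := fun a v => F (f a) = v ∧ S a v) (REIn.and ?_ hS)
    exact REIn.comp (S := fun p : ℕ × ℕ => F p.1 = p.2) hF
      (f := fun x : α × ℕ => (f x.1, x.2)) (by fun_prop)
  exact h1.of_eq fun a => ⟨fun ⟨v, h1, h2⟩ => h1 ▸ h2, fun h => ⟨_, rfl, h⟩⟩

theorem high_of_dominating {A : Set ℕ} {F : ℕ → ℕ} (hF : FunIn A F)
    (hdom : ∀ p : ℕ → ℕ, Computable p → ∃ k, ∀ m, k ≤ m → p m ≤ F m) :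
    Red (jump (jump ∅)) (jump A) := by
  have hR : Red (jump ∅) (jump A) := jump_mono (Red_empty A)
  obtain ⟨e0, he0⟩ := RE.wst_univ jump_empty_re
  obtain ⟨e1, he1⟩ := RE.wst_univ W_re
  let cs : ℕ → Info × ℕ := fun m => (Encodable.decode (α := Info × ℕ) m).getD (([], []), 0)
  have hcs : Computable cs := Primrec.option_getD.to_comp.comp (by fun_prop) (by fun_prop)
  let hyp : ℕ → Info × ℕ → Prop := fun x c => RE.wst (ℕ × ℕ) e1 c.2 (x, encode c.1) = true ∧
    ∀ y ∈ c.1.1, RE.wst ℕ e0 c.2 y = true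
  let P : ℕ → ℕ → ℕ → Prop := fun x m t => hyp x (cs m) → ∃ y ∈ (cs m).1.2, RE.wst ℕ e0 t y = true
  have hw0 : Computable fun p : ℕ × ℕ => RE.wst ℕ e0 p.1 p.2 :=
    (RE.wst_comp (α := ℕ)).comp (f := fun p : (ℕ × ℕ) × ℕ => RE.wst ℕ p.1.1 p.1.2 p.2)
      (g := fun p : ℕ × ℕ => ((e0, p.1), p.2)) (by fun_prop)
  have hw1 : Computable fun p : ℕ × (ℕ × ℕ) => RE.wst (ℕ × ℕ) e1 p.1 p.2 :=
    (RE.wst_comp (α := ℕ × ℕ)).comp
      (f := fun p : (ℕ × ℕ) × (ℕ × ℕ) => RE.wst (ℕ × ℕ) p.1.1 p.1.2 p.2)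
      (g := fun p : ℕ × (ℕ × ℕ) => ((e1, p.1), p.2)) (by fun_prop)
  have hw0t : ∀ {α : Type} [Primcodable α] {f g : α → ℕ}, Computable f → Computable g →
      ComputablePred fun a => RE.wst ℕ e0 (f a) (g a) = true := by
    intro α _ f g hf hg
    exact RE.cp_eq (g := fun _ => true) (hw0.comp (g := fun a => (f a, g a)) (by fun_prop))
      (by fun_prop)
  have hhyp : REPred fun p : ℕ × (Info × ℕ) => hyp p.1 p.2 := by
    refine RE.and ?_ ?_
    · exact RE.eq (g := fun _ => true) (hw1.comp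
        (g := fun p : ℕ × (Info × ℕ) => (p.2.2, (p.1, encode p.2.1))) (by fun_prop)) (by fun_prop)
    · exact RE.all_mem (p := fun (p : ℕ × (Info × ℕ)) y => RE.wst ℕ e0 p.2.2 y = true)
        (l := fun p => p.2.1.1) (hw0t (by fun_prop) (by fun_prop)).to_re (by fun_prop)
  have hhypn : REPred fun p : ℕ × (Info × ℕ) => ¬ hyp p.1 p.2 := by
    have h1 : REPred fun p : ℕ × (Info × ℕ) =>
        RE.wst (ℕ × ℕ) e1 p.2.2 (p.1, encode p.2.1) ≠ true ∨
        ∃ y ∈ p.2.1.1, RE.wst ℕ e0 p.2.2 y ≠ true := by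
      refine RE.or ?_ ?_
      · exact RE.ne (g := fun _ => true) (hw1.comp
          (g := fun p : ℕ × (Info × ℕ) => (p.2.2, (p.1, encode p.2.1))) (by fun_prop))
          (by fun_prop)
      · exact RE.ex_mem (p := fun (p : ℕ × (Info × ℕ)) y => RE.wst ℕ e0 p.2.2 y ≠ true)
          (l := fun p => p.2.1.1) (hw0t (by fun_prop) (by fun_prop)).not.to_re (by fun_prop)
    refine h1.of_eq fun p => ?_
    simp only [hyp, not_and_or]
    push Not
    exact Iff.rfl
  have hP : REPred fun p : (ℕ × ℕ) × ℕ => P p.1.1 p.1.2 p.2 := by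
    have h1 : REPred fun p : (ℕ × ℕ) × ℕ => ¬ hyp p.1.1 (cs p.1.2) ∨
        ∃ y ∈ (cs p.1.2).1.2, RE.wst ℕ e0 p.2 y = true := by
      refine RE.or ?_ ?_
      · exact RE.comp hhypn (f := fun p : (ℕ × ℕ) × ℕ => (p.1.1, cs p.1.2)) (by fun_prop)
      · exact RE.ex_mem (p := fun (p : (ℕ × ℕ) × ℕ) y => RE.wst ℕ e0 p.2 y = true)
          (l := fun p => (cs p.1.2).1.2) (hw0t (by fun_prop) (by fun_prop)).to_re (by fun_prop)
    refine h1.of_eq fun p => ?_
    simp only [P]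
    tauto
  have hPn : REPred fun p : (ℕ × ℕ) × ℕ => ¬ P p.1.1 p.1.2 p.2 := by
    have h1 : REPred fun p : (ℕ × ℕ) × ℕ => hyp p.1.1 (cs p.1.2) ∧
        ∀ y ∈ (cs p.1.2).1.2, RE.wst ℕ e0 p.2 y ≠ true := by
      refine RE.and ?_ ?_
      · exact RE.comp hhyp (f := fun p : (ℕ × ℕ) × ℕ => (p.1.1, cs p.1.2)) (by fun_prop)
      · exact RE.all_mem (p := fun (p : (ℕ × ℕ) × ℕ) y => RE.wst ℕ e0 p.2 y ≠ true)
          (l := fun p => (cs p.1.2).1.2) (hw0t (by fun_prop) (by fun_prop)).not.to_re (by fun_prop)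
    refine h1.of_eq fun p => ?_
    simp only [P]
    push Not
    exact Iff.rfl
  have hPmono : ∀ x m t t', t ≤ t' → P x m t → P x m t' := by
    intro x m t t' htt hP hh
    obtain ⟨y, hy, hyt⟩ := hP hh
    exact ⟨y, hy, RE.wst_mono htt hyt⟩
  -- the complement of the double jump
  have key : ∀ x, x ∉ jump (jump ∅) ↔ ∀ m, ∃ t, P x m t := by
    intro x
    constructor
    · intro hx m
      by_cases hh : hyp x (cs m)
      · by_contra hcon
        push Not at hcon
        refine hx ⟨(cs m).1, ⟨fun y hy => (he0 y).2 ⟨_, hh.2 y hy⟩, fun y hy hyJ => ?_⟩,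
          (he1 (x, encode (cs m).1)).2 ⟨_, hh.1⟩⟩
        obtain ⟨t, ht⟩ := (he0 y).1 hyJ
        exact hcon t fun _ => ⟨y, hy, ht⟩
      · exact ⟨0, fun h => absurd h hh⟩
    · rintro h ⟨c, hc, hW⟩
      obtain ⟨s1, hs1⟩ := (he1 (x, encode c)).1 hW
      obtain ⟨s2, hs2⟩ : ∃ s2, ∀ y ∈ c.1, RE.wst ℕ e0 s2 y = true := by
        have hc1 := hc.1
        clear hs1 hc
        generalize c.1 = l at hc1
        induction l with
        | nil => exact ⟨0, by simp⟩
        | cons a l ih =>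
          obtain ⟨s, hs⟩ := ih fun y hy => hc1 y (by simp [hy])
          obtain ⟨s', hs'⟩ := (he0 a).1 (hc1 a (by simp))
          refine ⟨max s s', fun y hy => ?_⟩
          rcases List.mem_cons.1 hy with rfl | hy
          · exact RE.wst_mono (le_max_right _ _) hs'
          · exact RE.wst_mono (le_max_left _ _) (hs y hy)
      obtain ⟨t, ht⟩ := h (encode (c, max s1 s2))
      have hcs' : cs (encode (c, max s1 s2)) = (c, max s1 s2) := by
        simp only [cs, encodek, Option.getD_some]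
      simp only [P, hcs'] at ht
      obtain ⟨y, hy, hyt⟩ := ht ⟨RE.wst_mono (le_max_left _ _) hs1,
        fun y hy => RE.wst_mono (le_max_right _ _) (hs2 y hy)⟩
      exact hc.2 y hy ((he0 y).2 ⟨t, hyt⟩)
  have key2 : ∀ x, x ∉ jump (jump ∅) ↔ ∃ k, ¬ ∃ m, ¬ P x m (F m + k) := by
    intro x
    rw [key]
    constructor
    · intro h
      classical
      let p : ℕ → ℕ := fun m => Nat.find (h m)
      have hp : Computable p := by
        refine RE.computable_of_graph ?_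
        have h1 : REPred fun q : ℕ × ℕ => P x q.1 q.2 ∧ ∀ t < q.2, ¬ P x q.1 t := by
          refine RE.and ?_ ?_
          · exact RE.comp hP (f := fun q : ℕ × ℕ => ((x, q.1), q.2)) (by fun_prop)
          · exact RE.all_lt (p := fun (q : ℕ × ℕ) t => ¬ P x q.1 t) (f := fun q => q.2)
              (RE.comp hPn (f := fun q : (ℕ × ℕ) × ℕ => ((x, q.1.1), q.2)) (by fun_prop))
              (by fun_prop)
        refine h1.of_eq fun q => ?_
        exact (Nat.find_eq_iff (h q.1)).symm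
      obtain ⟨k0, hk0⟩ := hdom p hp
      refine ⟨∑ m ∈ Finset.range k0, p m, ?_⟩
      rintro ⟨m, hm⟩
      apply hm
      have hpm : P x m (p m) := Nat.find_spec (h m)
      refine hPmono x m _ _ ?_ hpm
      rcases le_or_gt k0 m with h1 | h1
      · have := hk0 m h1; omega
      · have := Finset.single_le_sum (f := p) (fun i _ => Nat.zero_le _)
          (Finset.mem_range.2 h1)
        omega
    · rintro ⟨k, hk⟩ m
      by_contra hcon
      push Not at hcon
      exact hk ⟨m, hcon _⟩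
  have hQ : REIn A fun q : ℕ × ℕ => ∃ m, ¬ P q.1 m (F m + q.2) := by
    refine REIn.ex (S := fun (q : ℕ × ℕ) m => ¬ P q.1 m (F m + q.2)) ?_
    refine FunIn.re hF (S := fun (x : (ℕ × ℕ) × ℕ) v => ¬ P x.1.1 x.2 (v + x.1.2))
      (REIn.of_re ?_) (f := fun x => x.2) (by fun_prop)
    exact RE.comp hPn (f := fun x : ((ℕ × ℕ) × ℕ) × ℕ => ((x.1.1.1, x.1.2), x.2 + x.1.1.2))
      (by fun_prop)
  obtain ⟨f, hf, hfQ⟩ := REIn_iff_jump.1 hQ
  rw [Red_iff]
  refine ⟨reMono mem_jump_re hR, ?_⟩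
  have h1 : REIn (jump A) fun x : ℕ => ∃ k, f (x, k) ∉ jump A :=
    REIn.ex (S := fun (x k : ℕ) => f (x, k) ∉ jump A)
      (REIn.not_mem (f := fun y : ℕ × ℕ => f (y.1, y.2)) (by fun_prop))
  refine h1.of_eq fun x => ?_
  rw [key2]
  exact exists_congr fun k => not_congr (hfQ (x, k)).symm

end Pool.Agent.H454R3.Att
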