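import Mathlib

/-!
# Fair coin tosses
-/

set_option autoImplicit false

namespace Pool.Agent.H454R3.Att

open MeasureTheory ProbabilityTheory
open scoped ENNReal

/-- The fair coin: `true` and `false` have probability `1/2`. -/
noncomputable def coin : Measure Bool := (2⁻¹ : ℝ≥0∞) • (Measure.dirac true + Measure.dirac false)

instance : IsProbabilityMeasure coin := by
  constructor
  simp only [coin, Measure.smul_apply, Measure.add_apply, Measure.dirac_apply_of_mem,
    Set.mem_univ, smul_eq_mul]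
  rw [one_add_one_eq_two, ENNReal.inv_mul_cancel (by norm_num) (by norm_num)]

theorem coin_singleton (b : Bool) : coin {b} = 2⁻¹ := by
  cases b <;> simp [coin]

/-- The fair coin-toss measure on `2^ω`: the product of the fair coins. -/
noncomputable def coins : Measure (ℕ → Bool) := Measure.infinitePi fun _ => coin

instance : IsProbabilityMeasure coins := by unfold coins; infer_instance

/-- the region: the block of length `e + 2` at the place `n` is constantly `true` -/
def R (e n : ℕ) : Set (ℕ → Bool) := {b | ∀ i < e + 2, b (Nat.pair n i) = true}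

def DepF (F : Finset ℕ) (S : Set (ℕ → Bool)) : Prop :=
  ∀ w w' : ℕ → Bool, (∀ j ∈ F, w j = w' j) → (w ∈ S ↔ w' ∈ S)

theorem DepF.exists {F : Finset ℕ} {S : Set (ℕ → Bool)} (h : DepF F S) :
    ∃ T : Set (F → Bool), S = (fun (w : ℕ → Bool) (i : F) => w i) ⁻¹' T := by
  refine ⟨(fun (w : ℕ → Bool) (i : F) => w i) '' S, ?_⟩
  ext w
  constructor
  · intro hw
    exact ⟨w, hw, rfl⟩
  · rintro ⟨w', hw', h'⟩
    exact (h w' w fun j hj => congrFun h' ⟨j, hj⟩).mp hw'

theorem measurable_rest (I : Finset ℕ) : Measurable (fun (w : ℕ → Bool) (i : I) => w i) := by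
  fun_prop

theorem DepF.measurableSet {F : Finset ℕ} {S : Set (ℕ → Bool)} (h : DepF F S) :
    MeasurableSet S := by
  obtain ⟨T, rfl⟩ := h.exists
  exact measurable_rest _ (Set.toFinite T).measurableSet

theorem DepF.indep {F F' : Finset ℕ} {S S' : Set (ℕ → Bool)} (h : DepF F S) (h' : DepF F' S')
    (hF : Disjoint F F') : coins (S ∩ S') = coins S * coins S' := by
  obtain ⟨T, rfl⟩ := h.exists
  obtain ⟨T', rfl⟩ := h'.exists
  have h1 : iIndepFun (fun (i : ℕ) (w : ℕ → Bool) => w i) coins :=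
    iIndepFun_infinitePi (P := fun _ : ℕ => coin) (X := fun _ x => x) (fun _ => measurable_id)
  have h2 := h1.indepFun_finset F F' hF (fun i => measurable_pi_apply i)
  exact h2.measure_inter_preimage_eq_mul _ _ (Set.toFinite T).measurableSet
    (Set.toFinite T').measurableSet

def block (e n : ℕ) : Finset ℕ := (Finset.range (e + 2)).image (Nat.pair n)

theorem mem_block {e n j : ℕ} : j ∈ block e n ↔ ∃ i < e + 2, Nat.pair n i = j := by
  simp [block]

theorem dep_R (e n : ℕ) : DepF (block e n) (R e n) := by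
  intro w w' h
  have h1 : ∀ i < e + 2, w (Nat.pair n i) = w' (Nat.pair n i) := fun i hi =>
    h _ (mem_block.2 ⟨i, hi, rfl⟩)
  constructor
  · intro hw i hi
    rw [← h1 i hi]; exact hw i hi
  · intro hw i hi
    rw [h1 i hi]; exact hw i hi

theorem DepF.compl {F : Finset ℕ} {S : Set (ℕ → Bool)} (h : DepF F S) : DepF F Sᶜ :=
  fun w w' hw => not_congr (h w w' hw)

theorem coins_R (e n : ℕ) : coins (R e n) = (2⁻¹) ^ (e + 2) := by
  have h : R e n = Set.pi (block e n : Set ℕ) (fun _ => ({true} : Set Bool)) := by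
    ext w
    simp only [R, Set.mem_ofPred_eq, Set.mem_pi, Finset.mem_coe, mem_block, Set.mem_singleton_iff]
    constructor
    · rintro h j ⟨i, hi, rfl⟩
      exact h i hi
    · intro h i hi
      exact h _ ⟨i, hi, rfl⟩
  rw [h, coins, Measure.infinitePi_pi _ (fun i _ => measurableSet_singleton _)]
  have hc : (block e n).card = e + 2 := by
    unfold block
    rw [Finset.card_image_of_injective _ (fun a b hab => (Nat.pair_eq_pair.1 hab).2),
      Finset.card_range]
  simp [coin_singleton, hc]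

theorem coins_inter (e : ℕ) (S : Finset ℕ) :
    coins (⋂ n ∈ S, (R e n)ᶜ) = (1 - (2⁻¹) ^ (e + 2)) ^ S.card ∧
    DepF (S.biUnion (block e)) (⋂ n ∈ S, (R e n)ᶜ) := by
  classical
  induction S using Finset.induction_on with
  | empty =>
    refine ⟨by simp, fun w w' _ => by simp⟩
  | insert a S ha ih =>
    obtain ⟨ih1, ih2⟩ := ih
    have h1 : (⋂ n ∈ insert a S, (R e n)ᶜ) = (R e a)ᶜ ∩ ⋂ n ∈ S, (R e n)ᶜ := by
      rw [Finset.set_biInter_insert]
    constructor
    · have hdis : Disjoint (block e a) (S.biUnion (block e)) := by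
        rw [Finset.disjoint_left]
        intro j hj hj'
        obtain ⟨n, hn, hj'⟩ := Finset.mem_biUnion.1 hj'
        obtain ⟨i, _, rfl⟩ := mem_block.1 hj
        obtain ⟨i', _, h⟩ := mem_block.1 hj'
        have := (Nat.pair_eq_pair.1 h).1
        rw [this] at hn
        exact ha hn
      rw [h1, (dep_R e a).compl.indep ih2 hdis, ih1,
        prob_compl_eq_one_sub (dep_R e a).measurableSet, coins_R,
        Finset.card_insert_of_notMem ha, pow_succ (1 - (2⁻¹ : ℝ≥0∞) ^ (e + 2)), mul_comm]
    · rw [h1]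
      intro w w' h
      have h2 := (dep_R e a).compl w w' fun j hj => h j (by
        rw [Finset.biUnion_insert]; exact Finset.mem_union_left _ hj)
      have h3 := ih2 w w' fun j hj => h j (by
        rw [Finset.biUnion_insert]; exact Finset.mem_union_right _ hj)
      simp only [Set.mem_inter_iff]
      rw [h2, h3]

/-- almost every sequence is in infinitely many of the regions -/
theorem ae_infinite (e : ℕ) {K : Set ℕ} (hK : K.Infinite) :
    ∀ᵐ b ∂coins, ∀ N, ∃ n, N ≤ n ∧ n ∈ K ∧ b ∈ R e n := by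
  rw [ae_all_iff]
  intro N
  rw [ae_iff]
  have hKN : (K \ Set.Iio N).Infinite := hK.sdiff (Set.finite_Iio N)
  have hle : ∀ m : ℕ, coins {b | ¬ ∃ n, N ≤ n ∧ n ∈ K ∧ b ∈ R e n} ≤
      (1 - (2⁻¹) ^ (e + 2)) ^ m := by
    intro m
    obtain ⟨S, hS, hcard⟩ := hKN.exists_subset_card_eq m
    rw [← hcard, ← (coins_inter e S).1]
    refine measure_mono fun b hb => ?_
    simp only [Set.mem_iInter]
    intro n hn hbn
    have h1 := hS hn
    exact hb ⟨n, by simpa using h1.2, h1.1, hbn⟩
  have hlt : (1 - (2⁻¹ : ℝ≥0∞) ^ (e + 2)) < 1 :=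
    ENNReal.sub_lt_self (by norm_num) (by norm_num) (by simp)
  have htend := ENNReal.tendsto_pow_atTop_nhds_zero_of_lt_one hlt
  exact le_antisymm (ge_of_tendsto' htend hle) bot_le

/-- a sequence avoiding one region for each `e` -/
theorem exists_avoiding {Q : (ℕ → Bool) → Prop} (hQ : ∀ᵐ b ∂coins, Q b) (n : ℕ → ℕ) :
    ∃ b, Q b ∧ ∀ e, b ∉ R e (n e) := by
  by_contra hcon
  push Not at hcon
  have h1 : (Set.univ : Set (ℕ → Bool)) ⊆ {b | ¬ Q b} ∪ ⋃ e, R e (n e) := by
    intro b _
    by_cases hb : Q b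
    · obtain ⟨e, he⟩ := hcon b hb
      exact Or.inr (Set.mem_iUnion.2 ⟨e, he⟩)
    · exact Or.inl hb
  have h2 : coins Set.univ ≤ 0 + ∑' e : ℕ, (2⁻¹ : ℝ≥0∞) ^ (e + 2) := by
    refine (measure_mono h1).trans ((measure_union_le _ _).trans ?_)
    refine add_le_add (le_of_eq (ae_iff.1 hQ)) ((measure_iUnion_le _).trans ?_)
    exact ENNReal.tsum_le_tsum fun e => (coins_R e (n e)).le
  rw [measure_univ, zero_add] at h2
  have h3 : ∑' e : ℕ, (2⁻¹ : ℝ≥0∞) ^ (e + 2) = 2⁻¹ := by
    simp_rw [pow_add]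
    rw [ENNReal.tsum_mul_right, ENNReal.tsum_geometric, ENNReal.one_sub_inv_two, inv_inv, pow_two,
      ← mul_assoc, ENNReal.mul_inv_cancel (by norm_num) (by norm_num), one_mul]
  rw [h3] at h2
  exact absurd h2 (by simp)

end Pool.Agent.H454R3.Att
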