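import Pool.Agent.H454R3.Att.Mod
import Pool.Agent.H454R3.Att.Prob

/-!
# Almost every set which avoids countably many small regions computes a function which is not
dominated by any function computable from a set which is not high
-/

set_option autoImplicit false

namespace Pool.Agent.H454R3.Att

open Encodable Pool.Agent.Helper578.JD Pool.Agent.Helper578.JD.Oracle MeasureTheory

/-- at the stage `s` the values up to `n` of the `e`-th function are bounded by `s` -/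
def TT (e s n : ℕ) : Prop :=
  n < s ∧ ∀ i < n + 1, ∃ v, v < s + 1 ∧ RE.wst (ℕ × ℕ) e s (i, v) = true

theorem TT_mono {e s t n : ℕ} (h : s ≤ t) (hT : TT e s n) : TT e t n := by
  refine ⟨lt_of_lt_of_le hT.1 h, fun i hi => ?_⟩
  obtain ⟨v, hv, hv'⟩ := hT.2 i hi
  exact ⟨v, by omega, RE.wst_mono h hv'⟩

theorem TT_cp : ComputablePred fun p : ℕ × ℕ × ℕ => TT p.1 p.2.1 p.2.2 := by
  refine RE.cp_of_re ?_ ?_
  · refine RE.and (RE.lt (by fun_prop) (by fun_prop)) ?_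
    refine RE.all_lt (p := fun (p : ℕ × ℕ × ℕ) i => ∃ v, v < p.2.1 + 1 ∧
      RE.wst (ℕ × ℕ) p.1 p.2.1 (i, v) = true) (f := fun p => p.2.2 + 1) ?_ (by fun_prop)
    refine RE.exN (p := fun (x : (ℕ × ℕ × ℕ) × ℕ) v => v < x.1.2.1 + 1 ∧
      RE.wst (ℕ × ℕ) x.1.1 x.1.2.1 (x.2, v) = true) ?_
    exact RE.and (RE.lt (by fun_prop) (by fun_prop))
      (wst_cp (by fun_prop) (by fun_prop) (by fun_prop)).to_re
  · have h1 : REPred fun p : ℕ × ℕ × ℕ => p.2.1 ≤ p.2.2 ∨ ∃ i, i < p.2.2 + 1 ∧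
        ∀ v < p.2.1 + 1, RE.wst (ℕ × ℕ) p.1 p.2.1 (i, v) ≠ true := by
      refine RE.or (RE.le (by fun_prop) (by fun_prop)) ?_
      refine RE.exN (p := fun (p : ℕ × ℕ × ℕ) i => i < p.2.2 + 1 ∧
        ∀ v < p.2.1 + 1, RE.wst (ℕ × ℕ) p.1 p.2.1 (i, v) ≠ true)
        (RE.and (RE.lt (by fun_prop) (by fun_prop)) ?_)
      refine RE.all_lt (p := fun (x : (ℕ × ℕ × ℕ) × ℕ) v =>
        RE.wst (ℕ × ℕ) x.1.1 x.1.2.1 (x.2, v) ≠ true) (f := fun x => x.1.2.1 + 1) ?_ (by fun_prop)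
      exact (wst_cp (by fun_prop) (by fun_prop) (by fun_prop)).not.to_re
    refine h1.of_eq fun p => ?_
    unfold TT
    rw [not_and_or]
    push Not
    exact Iff.rfl

/-- `s` is the next term after `n` -/
def Nx (e n s : ℕ) : Prop := TT e s n ∧ ∀ t < s, ¬ TT e t n

theorem Nx_cp : ComputablePred fun p : ℕ × ℕ × ℕ => Nx p.1 p.2.1 p.2.2 := by
  have hT : ComputablePred fun p : ℕ × ℕ × ℕ => TT p.1 p.2.2 p.2.1 :=
    RE.cp_comp TT_cp (f := fun p : ℕ × ℕ × ℕ => (p.1, p.2.2, p.2.1)) (by fun_prop)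
  have hT' : ComputablePred fun x : (ℕ × ℕ × ℕ) × ℕ => TT x.1.1 x.2 x.1.2.1 :=
    RE.cp_comp TT_cp (f := fun x : (ℕ × ℕ × ℕ) × ℕ => (x.1.1, x.2, x.1.2.1)) (by fun_prop)
  refine RE.cp_of_re ?_ ?_
  · refine RE.and hT.to_re ?_
    exact RE.all_lt (p := fun (p : ℕ × ℕ × ℕ) t => ¬ TT p.1 t p.2.1) (f := fun p => p.2.2)
      hT'.not.to_re (by fun_prop)
  · have h1 : REPred fun p : ℕ × ℕ × ℕ => ¬ TT p.1 p.2.2 p.2.1 ∨
        ∃ t, t < p.2.2 ∧ TT p.1 t p.2.1 := by
      refine RE.or hT.not.to_re ?_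
      exact RE.exN (p := fun (p : ℕ × ℕ × ℕ) t => t < p.2.2 ∧ TT p.1 t p.2.1)
        (RE.and (RE.lt (by fun_prop) (by fun_prop)) hT'.to_re)
    refine h1.of_eq fun p => ?_
    unfold Nx
    rw [not_and_or]
    push Not
    exact Iff.rfl

theorem Nx.lt {e n s : ℕ} (h : Nx e n s) : n < s := h.1.1

theorem Nx.le {e n s t : ℕ} (h : Nx e n s) (ht : TT e t n) : s ≤ t := by
  by_contra hcon
  exact h.2 t (by omega) ht

theorem Nx.unique {e n s t : ℕ} (h : Nx e n s) (h' : Nx e n t) : s = t :=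
  le_antisymm (h.le h'.1) (h'.le h.1)

open Classical in
/-- the last term which is at most `n` -/
noncomputable def lst (e n : ℕ) : ℕ :=
  Nat.rec 0 (fun n r => if Nx e r (n + 1) then n + 1 else r) n

open Classical in
theorem lst_succ (e n : ℕ) :
    lst e (n + 1) = if Nx e (lst e n) (n + 1) then n + 1 else lst e n := rfl

theorem lst_le (e n : ℕ) : lst e n ≤ n := by
  induction n with
  | zero => exact le_rfl
  | succ n ih =>
    rw [lst_succ]
    split_ifs <;> omega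

theorem lst_computable : Computable fun p : ℕ × ℕ => lst p.1 p.2 := by
  classical
  have h1 : Computable fun x : (ℕ × ℕ) × (ℕ × ℕ) =>
      if Nx x.1.1 x.2.2 (x.2.1 + 1) then x.2.1 + 1 else x.2.2 :=
    RE.cite (RE.cp_comp Nx_cp (f := fun x : (ℕ × ℕ) × (ℕ × ℕ) => (x.1.1, x.2.2, x.2.1 + 1))
      (by fun_prop)) (by fun_prop) (by fun_prop)
  refine (Computable.nat_rec (f := fun p : ℕ × ℕ => p.2) (g := fun _ => 0)
    (h := fun p q => if Nx p.1 q.2 (q.1 + 1) then q.1 + 1 else q.2) (by fun_prop) (by fun_prop)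
    h1).of_eq fun p => ?_
  rfl

/-- without a next term, the last term does not change -/
theorem lst_const {e n m : ℕ} (hn : lst e n = n) (hnm : n ≤ m)
    (h : ∀ s, n < s → s ≤ m → ¬ Nx e n s) : lst e m = n := by
  induction m, hnm using Nat.le_induction with
  | base => exact hn
  | succ m hm ih =>
    have h1 := ih fun s hs hsm => h s hs (by omega)
    rw [lst_succ, h1, if_neg (h (m + 1) (by omega) le_rfl)]

theorem lst_next {e n s : ℕ} (hn : lst e n = n) (hs : Nx e n s) : lst e s = s := by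
  obtain ⟨m, rfl⟩ : ∃ m, s = m + 1 := ⟨s - 1, by have := hs.lt; omega⟩
  have h1 : lst e m = n := lst_const hn (by have := hs.lt; omega) fun t _ htm ht => by
    have := ht.unique hs; omega
  rw [lst_succ, h1, if_pos hs]

/-- there is at most one term without a next term -/
theorem exists_dead (e : ℕ) : ∃ n0, ∀ n, lst e n = n → (¬ ∃ s, Nx e n s) → n = n0 := by
  by_cases h : ∃ n0, lst e n0 = n0 ∧ ¬ ∃ s, Nx e n0 s
  · obtain ⟨n0, h1, h2⟩ := h
    refine ⟨n0, fun n h3 h4 => ?_⟩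
    rcases lt_trichotomy n n0 with hlt | rfl | hlt
    · have := lst_const (m := n0) h3 hlt.le fun s _ _ hs => h4 ⟨s, hs⟩
      omega
    · rfl
    · have := lst_const (m := n) h1 hlt.le fun s _ _ hs => h2 ⟨s, hs⟩
      omega
  · push Not at h
    refine ⟨0, fun n h3 h4 => ?_⟩
    obtain ⟨s, hs⟩ := h n h3
    exact absurd ⟨s, hs⟩ h4

/-- the value `s` is allowed at `n` for the sequence `b` -/
def Q (b : ℕ → Bool) (n s : ℕ) : Prop := ∀ e < n + 1, lst e n = n → b ∈ R e n → TT e s n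

theorem Q_mono {b : ℕ → Bool} {n s t : ℕ} (h : s ≤ t) (hQ : Q b n s) : Q b n t :=
  fun e he h1 h2 => TT_mono h (hQ e he h1 h2)

/-- the set with characteristic sequence `b` -/
def toSet (b : ℕ → Bool) : Set ℕ := {n | b n = true}

theorem Q_re (b : ℕ → Bool) : REIn (toSet b) fun p : ℕ × ℕ => Q b p.1 p.2 := by
  have h1 : REIn (toSet b) fun p : ℕ × ℕ => ∀ e < p.1 + 1, lst e p.1 ≠ p.1 ∨
      (∃ i, i < e + 2 ∧ Nat.pair p.1 i ∉ toSet b) ∨ TT e p.2 p.1 := by
    refine REIn.all_lt (S := fun (p : ℕ × ℕ) e => lst e p.1 ≠ p.1 ∨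
      (∃ i, i < e + 2 ∧ Nat.pair p.1 i ∉ toSet b) ∨ TT e p.2 p.1) (f := fun p => p.1 + 1)
      (REIn.or ?_ (REIn.or ?_ ?_)) (by fun_prop)
    · refine REIn.of_re (RE.ne ?_ (by fun_prop))
      exact lst_computable.comp (g := fun x : (ℕ × ℕ) × ℕ => (x.2, x.1.1)) (by fun_prop)
    · exact REIn.ex (S := fun (x : (ℕ × ℕ) × ℕ) i => i < x.2 + 2 ∧ Nat.pair x.1.1 i ∉ toSet b)
        (REIn.and (REIn.of_re (RE.lt (by fun_prop) (by fun_prop)))
          (REIn.not_mem (f := fun x : ((ℕ × ℕ) × ℕ) × ℕ => Nat.pair x.1.1.1 x.2) (by fun_prop)))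
    · exact REIn.of_re (RE.cp_comp TT_cp
        (f := fun x : (ℕ × ℕ) × ℕ => (x.2, x.1.2, x.1.1)) (by fun_prop)).to_re
  refine h1.of_eq fun p => ?_
  unfold Q
  refine forall₂_congr fun e _ => ?_
  have h2 : b ∈ R e p.1 ↔ ¬ ∃ i, i < e + 2 ∧ Nat.pair p.1 i ∉ toSet b := by
    simp [R, toSet]
  rw [h2]
  constructor
  · rintro (h3 | h3 | h3) h4 h5
    · exact absurd h4 h3
    · exact absurd h3 h5
    · exact h3
  · intro h3
    by_cases h4 : lst e p.1 = p.1
    · by_cases h5 : ∃ i, i < e + 2 ∧ Nat.pair p.1 i ∉ toSet b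
      · exact Or.inr (Or.inl h5)
      · exact Or.inr (Or.inr (h3 h4 h5))
    · exact Or.inl h4

theorem Q_total {b : ℕ → Bool} {nn : ℕ → ℕ}
    (hn : ∀ e n, lst e n = n → (¬ ∃ s, Nx e n s) → n = nn e) (hb : ∀ e, b ∉ R e (nn e)) (n : ℕ) :
    ∃ s, Q b n s := by
  have h1 : ∀ k, ∃ s, ∀ e < k, lst e n = n → b ∈ R e n → TT e s n := by
    intro k
    induction k with
    | zero => exact ⟨0, fun e he => by omega⟩
    | succ k ih =>
      obtain ⟨s, hs⟩ := ih
      have h2 : ∃ s', lst k n = n → b ∈ R k n → TT k s' n := by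
        by_cases h : lst k n = n ∧ b ∈ R k n
        · have h3 : ∃ s, Nx k n s := by
            by_contra hcon
            have := hn k n h.1 hcon
            rw [this] at h
            exact hb k h.2
          obtain ⟨s', hs'⟩ := h3
          exact ⟨s', fun _ _ => hs'.1⟩
        · exact ⟨0, fun h1 h2 => absurd ⟨h1, h2⟩ h⟩
      obtain ⟨s', hs'⟩ := h2
      refine ⟨max s s', fun e he h3 h4 => ?_⟩
      rcases Nat.lt_succ_iff_lt_or_eq.1 he with h | rfl
      · exact TT_mono (le_max_left _ _) (hs e h h3 h4)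
      · exact TT_mono (le_max_right _ _) (hs' h3 h4)
  exact h1 (n + 1)

/-- escaping -/
theorem exists_escape {A : Set ℕ} (hA : ¬ Red (jump (jump ∅)) (jump A)) {f : ℕ → ℕ}
    (hf : FunIn A f) : ∃ e, {n | lst e n = n ∧ ∃ s, Nx e n s ∧ f n < s}.Infinite := by
  classical
  by_contra hcon
  push Not at hcon
  apply hA
  obtain ⟨g1, hg1, hg1'⟩ := hf.bound (b := fun m => m + 1) (by fun_prop)
  refine high_of_dominating (hg1.comp hg1) fun p hp => ?_
  obtain ⟨e, he⟩ := RE.wst_univ (RE.eq (f := fun x : ℕ × ℕ => p x.1) (g := fun x => x.2)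
    (by fun_prop) (by fun_prop))
  -- the `e`-th function is total
  have htot : ∀ n, ∃ s, TT e s n := by
    intro n
    have h1 : ∀ k, ∃ s, ∀ i < k, ∃ v, v < s + 1 ∧ RE.wst (ℕ × ℕ) e s (i, v) = true := by
      intro k
      induction k with
      | zero => exact ⟨0, fun i hi => by omega⟩
      | succ k ih =>
        obtain ⟨s, hs⟩ := ih
        obtain ⟨s', hs'⟩ := (he (k, p k)).1 rfl
        refine ⟨s + s' + p k, fun i hi => ?_⟩
        rcases Nat.lt_succ_iff_lt_or_eq.1 hi with h | rfl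
        · obtain ⟨v, hv, hv'⟩ := hs i h
          exact ⟨v, by omega, RE.wst_mono (by omega) hv'⟩
        · exact ⟨p i, by omega, RE.wst_mono (by omega) hs'⟩
    obtain ⟨s, hs⟩ := h1 (n + 1)
    refine ⟨s + n + 1, by omega, fun i hi => ?_⟩
    obtain ⟨v, hv, hv'⟩ := hs i hi
    exact ⟨v, by omega, RE.wst_mono (by omega) hv'⟩
  have hnx : ∀ n, ∃ s, Nx e n s := fun n =>
    ⟨Nat.find (htot n), Nat.find_spec (htot n), fun t ht => Nat.find_min (htot n) ht⟩
  choose nx hnx using hnx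
  let a : ℕ → ℕ := fun k => Nat.rec 0 (fun _ r => nx r) k
  have ha : ∀ k, a (k + 1) = nx (a k) := fun k => rfl
  have hNx : ∀ k, Nx e (a k) (a (k + 1)) := fun k => hnx _
  have hlst : ∀ k, lst e (a k) = a k := by
    intro k
    induction k with
    | zero => exact Nat.le_zero.1 (lst_le e 0)
    | succ k ih => exact lst_next ih (hNx k)
  have hamono : StrictMono a := strictMono_nat_of_lt_succ fun k => (hNx k).lt
  obtain ⟨N, hN⟩ : ∃ N, ∀ n, lst e n = n → N ≤ n → ∀ s, Nx e n s → s ≤ f n := by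
    obtain ⟨N, hN⟩ := (hcon e).bddAbove
    refine ⟨N + 1, fun n h1 h2 s hs => ?_⟩
    by_contra hc
    push Not at hc
    have := hN (⟨h1, s, hs, hc⟩ : n ∈ {n | lst e n = n ∧ ∃ s, Nx e n s ∧ f n < s})
    omega
  refine ⟨a N, fun m hm => ?_⟩
  obtain ⟨k, hk1, hk2, hkN⟩ : ∃ k, a k ≤ m ∧ m < a (k + 1) ∧ N ≤ k := by
    have hex : ∃ k, m < a k := ⟨m + 1, lt_of_lt_of_le (Nat.lt_succ_self m) (hamono.id_le _)⟩
    have h1 := Nat.find_spec hex
    have h2 : N < Nat.find hex := by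
      by_contra hc
      have := hamono.monotone (show Nat.find hex ≤ N by omega)
      omega
    obtain ⟨k, hk⟩ : ∃ k, Nat.find hex = k + 1 := ⟨Nat.find hex - 1, by omega⟩
    rw [hk] at h1 h2
    refine ⟨k, ?_, h1, by omega⟩
    have := Nat.find_min hex (m := k) (by omega)
    omega
  have haN : ∀ j, N ≤ j → a (j + 1) ≤ f (a j) := fun j hj =>
    hN (a j) (hlst j) (hj.trans (hamono.id_le j)) _ (hNx j)
  obtain ⟨v, hv, hv'⟩ := (hNx (k + 1)).1.2 m (by omega)
  have hpv : p m = v := (he (m, v)).2 ⟨_, hv'⟩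
  have h1 := haN k hkN
  have h2 := haN (k + 1) (by omega)
  have h3 := hg1' m (a k) (by omega)
  have h4 := hg1' (g1 m) (a (k + 1)) (by omega)
  omega

theorem countable_funIn (A : Set ℕ) : Countable {f : ℕ → ℕ // FunIn A f} := by
  have h1 : ∀ f : {f : ℕ → ℕ // FunIn A f}, ∃ e : ℕ, ∀ p : ℕ × ℕ, f.1 p.1 = p.2 ↔
      ∃ c, (∃ s, RE.wst ((ℕ × ℕ) × Info) e s (p, c) = true) ∧ Ok A c := by
    rintro ⟨f, R, hR, h⟩
    obtain ⟨e, he⟩ := RE.wst_univ hR
    refine ⟨e, fun p => (h p).trans ?_⟩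
    exact exists_congr fun c => and_congr_left fun _ => he (p, c)
  choose e he using h1
  refine (Function.Injective.countable (f := e) fun f g hfg => ?_)
  ext n
  have h2 := (he f (n, f.1 n)).1 rfl
  rw [hfg] at h2
  exact ((he g (n, f.1 n)).2 h2).symm

theorem ae_escape {A : Set ℕ} (hA : ¬ Red (jump (jump ∅)) (jump A)) :
    ∀ᵐ b ∂coins, ∀ f : ℕ → ℕ, FunIn A f → ∀ g : ℕ → ℕ, (∀ n, Q b n (g n)) →
      ∀ N, ∃ n, N ≤ n ∧ f n < g n := by
  have := countable_funIn A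
  have h1 : ∀ᵐ b ∂coins, ∀ f : {f : ℕ → ℕ // FunIn A f}, ∀ g : ℕ → ℕ, (∀ n, Q b n (g n)) →
      ∀ N, ∃ n, N ≤ n ∧ f.1 n < g n := by
    rw [ae_all_iff]
    rintro ⟨f, hf⟩
    obtain ⟨e, he⟩ := exists_escape hA hf
    filter_upwards [ae_infinite e he] with b hb g hg N
    obtain ⟨n, hn, ⟨hn1, s, hs, hfs⟩, hbn⟩ := hb (max N e)
    refine ⟨n, (le_max_left _ _).trans hn, ?_⟩
    have h2 : e < n + 1 := by have := (le_max_right N e).trans hn; omega
    exact lt_of_lt_of_le hfs (hs.le (hg n e h2 hn1 hbn))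
  filter_upwards [h1] with b hb f hf
  exact hb ⟨f, hf⟩

end Pool.Agent.H454R3.Att
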