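import Pool.Agent.H454R3.Att.Kurtz
import Pool.Agent.H454R3.Att.Dens

/-!
# Every attractive c.e. degree is high
-/

set_option autoImplicit false

namespace Pool.Agent.H454R3.Att

open Encodable Pool.Agent.Helper578.JD Pool.Agent.Helper578.JD.Oracle MeasureTheory Filter

/-- `A` and `B` have the same Turing degree. -/
def TEqv (A B : Set ℕ) : Prop := Red A B ∧ Red B A

/-- The closure in `𝒮` of the set of the classes of the members of the Turing degree of `A`. -/
def degClosure (A : Set ℕ) : Set CoarseSpace := closure {x | ∃ X : Set ℕ, TEqv X A ∧ x = cls X}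

/-- The Hausdorff distance `H(A, B)` of the closures of the degrees of `A` and `B` in `𝒮`. -/
noncomputable def H (A B : Set ℕ) : ℝ := Metric.hausdorffDist (degClosure A) (degClosure B)

/-- `A` is attractive: `H(A, B) = 1/2` for almost every `B` with respect to the fair coin-toss
measure. -/
def Attractive (A : Set ℕ) : Prop := ∀ᵐ b ∂coins, H A (toSet b) = 1 / 2

/-- `A` is high: `A' ≡_T 0''`. -/
def High (A : Set ℕ) : Prop := TEqv (jump A) (jump (jump ∅))

theorem REIn.lift_re {A : Set ℕ} {α : Type*} [Primcodable α] {S : α → Prop} (h : REPred S) :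
    REIn A S := REIn.of_re h

theorem red_jump_empty {W : Set ℕ} (hW : REPred fun n => n ∈ W) : Red W (jump ∅) := by
  obtain ⟨f, hf, h⟩ := REIn_iff_jump.1 (REIn.of_re (A := ∅) hW)
  rw [Red_iff]
  exact ⟨(REIn.mem hf).of_eq fun a => (h a).symm, (REIn.not_mem hf).of_eq fun a =>
    not_congr (h a).symm⟩

/-! ### the blocks -/

/-- the ends of the blocks -/
def bd (k : ℕ) : ℕ := Nat.rec 1 (fun k r => (k + 2) * r) k

theorem bd_succ (k : ℕ) : bd (k + 1) = (k + 2) * bd k := rfl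

theorem bd_pos (k : ℕ) : 0 < bd k := by
  induction k with
  | zero => exact Nat.one_pos
  | succ k ih => rw [bd_succ]; positivity

theorem bd_computable : Computable bd := by
  have h1 : Computable fun x : ℕ × (ℕ × ℕ) => (x.2.1 + 2) * x.2.2 := by fun_prop
  refine (Computable.nat_rec (f := fun p : ℕ => p) (g := fun _ => 1)
    (h := fun _ q => (q.1 + 2) * q.2) (by fun_prop) (by fun_prop) h1).of_eq fun p => ?_
  rfl

theorem bd_lt (k : ℕ) : bd k < bd (k + 1) := by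
  rw [bd_succ]
  have := bd_pos k
  nlinarith

theorem bd_strictMono : StrictMono bd := strictMono_nat_of_lt_succ bd_lt

theorem bd_unique {k l x : ℕ} (h1 : bd k ≤ x) (h2 : x < bd (k + 1)) (h3 : bd l ≤ x)
    (h4 : x < bd (l + 1)) : k = l := by
  rcases lt_trichotomy k l with h | h | h
  · have := bd_strictMono.monotone (show k + 1 ≤ l from h); omega
  · exact h
  · have := bd_strictMono.monotone (show l + 1 ≤ k from h); omega

theorem bd_exists {x : ℕ} (hx : 1 ≤ x) : ∃ k, bd k ≤ x ∧ x < bd (k + 1) := by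
  have hex : ∃ k, x < bd k := ⟨x + 1, lt_of_lt_of_le (Nat.lt_succ_self x) (bd_strictMono.id_le _)⟩
  have h1 := Nat.find_spec hex
  have h2 : Nat.find hex ≠ 0 := by
    intro h
    rw [h] at h1
    have : bd 0 = 1 := rfl
    omega
  obtain ⟨k, hk⟩ : ∃ k, Nat.find hex = k + 1 := ⟨Nat.find hex - 1, by omega⟩
  rw [hk] at h1
  refine ⟨k, ?_, h1⟩
  have := Nat.find_min hex (m := k) (by omega)
  omega

/-- the set computed from `B` -/
def CC (a : ℕ) (B : Set ℕ) (g : ℕ → ℕ) : Set ℕ :=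
  {x | ∃ k, (bd k ≤ x ∧ x < bd (k + 1)) ∧ ((x = bd k ∧ k ∈ B) ∨
    (x ≠ bd k ∧ ¬ G a k.unpair.1 (g k.unpair.2) x))}

theorem not_mem_CC {a : ℕ} {B : Set ℕ} {g : ℕ → ℕ} {x : ℕ} : x ∉ CC a B g ↔ x < 1 ∨
    ∃ k, (bd k ≤ x ∧ x < bd (k + 1)) ∧ ((x = bd k ∧ k ∉ B) ∨
    (x ≠ bd k ∧ G a k.unpair.1 (g k.unpair.2) x)) := by
  constructor
  · intro h
    rcases Nat.lt_or_ge x 1 with h1 | h1
    · exact Or.inl h1
    · obtain ⟨k, hk1, hk2⟩ := bd_exists h1
      refine Or.inr ⟨k, ⟨hk1, hk2⟩, ?_⟩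
      by_cases hx : x = bd k
      · exact Or.inl ⟨hx, fun hB => h ⟨k, ⟨hk1, hk2⟩, Or.inl ⟨hx, hB⟩⟩⟩
      · refine Or.inr ⟨hx, ?_⟩
        by_contra hG
        exact h ⟨k, ⟨hk1, hk2⟩, Or.inr ⟨hx, hG⟩⟩
  · rintro (h1 | ⟨k, ⟨hk1, hk2⟩, h⟩) ⟨l, ⟨hl1, hl2⟩, h'⟩
    · have := bd_pos l; omega
    · obtain rfl := bd_unique hk1 hk2 hl1 hl2
      rcases h with ⟨h3, h4⟩ | ⟨h3, h4⟩ <;> rcases h' with ⟨h5, h6⟩ | ⟨h5, h6⟩
      · exact h4 h6
      · exact h5 h3
      · exact h3 h5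
      · exact h6 h4

theorem CC_eqv (a : ℕ) {B : Set ℕ} {g : ℕ → ℕ} (hg : FunIn B g) : TEqv (CC a B g) B := by
  have hbd := bd_computable
  have hbdc : ∀ {α : Type} [Primcodable α] {f : α → ℕ}, Computable f →
      Computable fun x => bd (f x) := fun hf => hbd.comp hf
  have hb1 : REPred fun p : ℕ × ℕ => bd p.2 ≤ p.1 ∧ p.1 < bd (p.2 + 1) :=
    RE.and (RE.le (hbdc (by fun_prop)) (by fun_prop)) (RE.lt (by fun_prop) (hbdc (by fun_prop)))
  constructor
  · rw [Red_iff]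
    constructor
    · refine REIn.ex (S := fun (x k : ℕ) => (bd k ≤ x ∧ x < bd (k + 1)) ∧ ((x = bd k ∧ k ∈ B) ∨
        (x ≠ bd k ∧ ¬ G a k.unpair.1 (g k.unpair.2) x))) ?_
      refine REIn.and (REIn.of_re hb1) (REIn.or (REIn.and ?_ ?_) (REIn.and ?_ ?_))
      · exact REIn.of_re (RE.eq (by fun_prop) (hbdc (by fun_prop)))
      · exact REIn.mem (f := fun p : ℕ × ℕ => p.2) (by fun_prop)
      · exact REIn.of_re (RE.ne (by fun_prop) (hbdc (by fun_prop)))
      · exact FunIn.re hg (S := fun (p : ℕ × ℕ) v => ¬ G a p.2.unpair.1 v p.1)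
          (REIn.of_re (RE.comp (nG_re a) (f := fun x : (ℕ × ℕ) × ℕ =>
            (x.1.2.unpair.1, x.2, x.1.1)) (by fun_prop))) (f := fun p => p.2.unpair.2)
          (by fun_prop)
    · have h1 : REIn B fun x : ℕ => x < 1 ∨
          ∃ k, (bd k ≤ x ∧ x < bd (k + 1)) ∧ ((x = bd k ∧ k ∉ B) ∨
          (x ≠ bd k ∧ G a k.unpair.1 (g k.unpair.2) x)) := by
        refine REIn.or (REIn.of_re (RE.lt (by fun_prop) (by fun_prop))) ?_
        refine REIn.ex (S := fun (x k : ℕ) => (bd k ≤ x ∧ x < bd (k + 1)) ∧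
          ((x = bd k ∧ k ∉ B) ∨ (x ≠ bd k ∧ G a k.unpair.1 (g k.unpair.2) x))) ?_
        refine REIn.and (REIn.of_re hb1) (REIn.or (REIn.and ?_ ?_) (REIn.and ?_ ?_))
        · exact REIn.of_re (RE.eq (by fun_prop) (hbdc (by fun_prop)))
        · exact REIn.not_mem (f := fun p : ℕ × ℕ => p.2) (by fun_prop)
        · exact REIn.of_re (RE.ne (by fun_prop) (hbdc (by fun_prop)))
        · exact FunIn.re hg (S := fun (p : ℕ × ℕ) v => G a p.2.unpair.1 v p.1)
            (REIn.of_re (RE.comp (G_re a) (f := fun x : (ℕ × ℕ) × ℕ =>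
              (x.1.2.unpair.1, x.2, x.1.1)) (by fun_prop))) (f := fun p => p.2.unpair.2)
            (by fun_prop)
      exact h1.of_eq fun x => not_mem_CC.symm
  · have hmem : ∀ k, bd k ∈ CC a B g ↔ k ∈ B := by
      intro k
      constructor
      · rintro ⟨l, ⟨h1, h2⟩, h⟩
        obtain rfl := bd_unique le_rfl (bd_lt k) h1 h2
        rcases h with ⟨_, h⟩ | ⟨h, _⟩
        · exact h
        · exact absurd rfl h
      · intro h
        exact ⟨k, ⟨le_rfl, bd_lt k⟩, Or.inl ⟨rfl, h⟩⟩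
    rw [Red_iff]
    exact ⟨(REIn.mem hbd).of_eq hmem, (REIn.not_mem hbd).of_eq fun k => not_congr (hmem k)⟩

/-- the density of agreement -/
theorem one_le_delta {a : ℕ} {A D B : Set ℕ} (hA : ∀ x, x ∈ A ↔ ∃ s, RE.wst ℕ a s x = true)
    (hD : Red D A) {g : ℕ → ℕ}
    (hg : ∀ f : ℕ → ℕ, FunIn A f → ∀ N, ∃ n, N ≤ n ∧ f n < g n) :
    1 ≤ delta (CC a B g) D := by
  obtain ⟨e, h, hh, hmod⟩ := exists_modulus hA hD
  have hbd : Computable fun n : ℕ => bd (Nat.pair e n + 1) :=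
    bd_computable.comp (by fun_prop)
  obtain ⟨f, hf, hfb⟩ := hh.bound hbd
  refine le_of_forall_pos_le_add fun ε hε => ?_
  have key : ∃ᶠ m : ℕ in atTop,
      1 - ε ≤ ((symmDiff (CC a B g) D ∩ Set.Iio m).ncard : ℝ) / m := by
    rw [frequently_atTop]
    intro N
    obtain ⟨M, hM⟩ := exists_nat_gt (2 / ε)
    obtain ⟨n, hn, hfg⟩ := hg f hf (max N M)
    set k := Nat.pair e n with hk
    have hkn : n ≤ k := Nat.right_le_pair e n
    have hNk : N ≤ k := ((le_max_left _ _).trans hn).trans hkn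
    have hMk : M ≤ k := ((le_max_right _ _).trans hn).trans hkn
    have hsub : Set.Ioo (bd k) (bd (k + 1)) ⊆
        symmDiff (CC a B g) D ∩ Set.Iio (bd (k + 1)) := by
      rintro x ⟨hx1, hx2⟩
      have hx : (x ∈ CC a B g ↔ x ∉ D) := by
        have h1 := hmod x (g n) ((hfb n x hx2).trans hfg.le)
        rw [← h1]
        constructor
        · rintro ⟨l, ⟨h3, h4⟩, h5⟩
          obtain rfl := bd_unique hx1.le hx2 h3 h4
          rcases h5 with ⟨h5, _⟩ | ⟨_, h5⟩
          · omega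
          · rw [hk] at h5
            simpa using h5
        · intro h3
          refine ⟨k, ⟨hx1.le, hx2⟩, Or.inr ⟨by omega, ?_⟩⟩
          rw [hk]
          simpa using h3
      refine ⟨?_, hx2⟩
      by_cases hxC : x ∈ CC a B g
      · exact Or.inl ⟨hxC, hx.1 hxC⟩
      · exact Or.inr ⟨by by_contra hcon; exact hxC (hx.2 hcon), hxC⟩
    have hcard := Set.ncard_le_ncard hsub (fin_inter _ _)
    have hcard' : (Set.Ioo (bd k) (bd (k + 1))).ncard = bd (k + 1) - bd k - 1 := by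
      rw [← Finset.coe_Ioo, Set.ncard_coe_finset, Nat.card_Ioo]
    rw [hcard'] at hcard
    refine ⟨bd (k + 1), hNk.trans ((Nat.le_succ k).trans (bd_strictMono.id_le _)), ?_⟩
    have hpos : (0 : ℝ) < bd (k + 1) := by exact_mod_cast bd_pos _
    rw [le_div_iff₀ hpos]
    have h1 : (bd (k + 1) : ℝ) - bd k - 1 ≤
        ((symmDiff (CC a B g) D ∩ Set.Iio (bd (k + 1))).ncard : ℝ) := by
      have h2 : bd (k + 1) ≤ (symmDiff (CC a B g) D ∩ Set.Iio (bd (k + 1))).ncard + bd k + 1 := by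
        omega
      have h3 : (bd (k + 1) : ℝ) ≤
          ((symmDiff (CC a B g) D ∩ Set.Iio (bd (k + 1))).ncard : ℝ) + bd k + 1 := by
        exact_mod_cast h2
      linarith
    refine le_trans ?_ h1
    have h4 : (bd (k + 1) : ℝ) = (k + 2) * bd k := by
      rw [bd_succ]; push_cast; ring
    have h5 : (1 : ℝ) ≤ bd k := by exact_mod_cast bd_pos k
    have h6 : (M : ℝ) ≤ k := by exact_mod_cast hMk
    have h7 : 2 < ε * k := by
      rw [div_lt_iff₀ hε] at hM
      nlinarith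
    rw [h4]
    nlinarith
  have := le_upperDensity key
  unfold delta
  linarith

theorem one_le_H {a : ℕ} {A W B : Set ℕ} (hW : ∀ x, x ∈ W ↔ ∃ s, RE.wst ℕ a s x = true)
    (hWA : TEqv W A) {g : ℕ → ℕ} (hgB : FunIn B g)
    (hg : ∀ f : ℕ → ℕ, FunIn W f → ∀ N, ∃ n, N ≤ n ∧ f n < g n) : 1 ≤ H A B := by
  unfold H
  rw [Metric.hausdorffDist_comm]
  refine one_le_hausdorff (x := CC a B g) ?_ ?_ ?_
  · exact ⟨cls A, subset_closure ⟨A, ⟨Red.refl A, Red.refl A⟩, rfl⟩⟩
  · exact subset_closure ⟨_, CC_eqv a hgB, rfl⟩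
  · intro y hy
    refine le_of_forall_pos_le_add fun ε hε => ?_
    obtain ⟨_, ⟨D, hD, rfl⟩, hyD⟩ := Metric.mem_closure_iff.1 hy ε hε
    rw [dist_cls] at hyD
    have h1 : 1 ≤ delta (CC a B g) D := one_le_delta hW (hD.1.trans hWA.2) hg
    have h2 := delta_triangle (CC a B g) y D
    linarith

/-- every attractive c.e. degree is high -/
theorem main {A W : Set ℕ} (hW : REPred fun n => n ∈ W) (hWA : TEqv W A)
    (hatt : Attractive A) : High A := by
  obtain ⟨a, ha⟩ := RE.wst_univ hW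
  refine ⟨jump_mono (hWA.2.trans (red_jump_empty hW)), ?_⟩
  by_contra hcon
  have hcon' : ¬ Red (jump (jump ∅)) (jump W) := fun h => hcon (h.trans (jump_mono hWA.1))
  choose nn hnn using exists_dead
  obtain ⟨b, ⟨hb1, hb2⟩, hb3⟩ := exists_avoiding ((hatt).and (ae_escape hcon')) nn
  obtain ⟨g, hg, hgQ⟩ := unif (Q_re b) (Q_total hnn hb3)
  have := one_le_H ha hWA hg fun f hf => hb2 f hf g hgQ
  rw [hb1] at this
  norm_num at this

end Pool.Agent.H454R3.Att
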